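import Pool.Agent.Y223.G.Stm6
import Pool.Agent.Y25.G.Base
import Pool.Agent.Y185.G.Dsc

/-!
Project G: fractions and constants of degree one (S_GFRG) and descent of forms (S_DSCG) for finite
groups.
-/

set_option autoImplicit false
set_option linter.unusedSectionVars false

namespace Pool.Agent.Y564.G

open Pool.Agent.Y223.G Pool.Agent.Y25.G

section act

variable {k A G : Type} [CommRing k] [CommRing A] [Algebra k A] [Group G] [Fintype G]

/-- The norm is invariant. -/
theorem nm_act (T : G →* (A ≃ₐ[k] A)) (h : G) (x : A) : T h (∏ g, T g x) = ∏ g, T g x := by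
  rw [map_prod]
  have h1 : ∀ g ∈ (Finset.univ : Finset G), T h (T g x) = T (h * g) x := fun g _ => by
    rw [map_mul]
    rfl
  rw [Finset.prod_congr rfl h1]
  exact Equiv.prod_comp (Equiv.mulLeft h) fun g => T g x

/-- The trace is invariant. -/
theorem tr_act (T : G →* (A ≃ₐ[k] A)) (h : G) (x : A) : T h (∑ g, T g x) = ∑ g, T g x := by
  rw [map_sum]
  have h1 : ∀ g ∈ (Finset.univ : Finset G), T h (T g x) = T (h * g) x := fun g _ => by
    rw [map_mul]
    rfl
  rw [Finset.sum_congr rfl h1]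
  exact Equiv.sum_comp (Equiv.mulLeft h) fun g => T g x

theorem act_one (T : G →* (A ≃ₐ[k] A)) (x : A) : T 1 x = x := by
  rw [map_one]
  rfl

open Classical in
/-- The norm is a multiple. -/
theorem nm_mul (T : G →* (A ≃ₐ[k] A)) (x : A) :
    ∏ g, T g x = x * ∏ g ∈ Finset.univ.erase 1, T g x := by
  rw [← Finset.mul_prod_erase Finset.univ (fun g => T g x) (Finset.mem_univ 1), act_one]

end act

section base

variable {k O K G : Type} [CommRing k] [IsDomain k] [CommRing O] [IsDomain O]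
    [IsDedekindDomain O] [Field K] [Group G] [Finite G] [Algebra k O] [Algebra O K] [Algebra k K]
    [IsScalarTower k O K] {ρ : G →* (K ≃ₐ[k] K)} {T : G →* (O ≃ₐ[k] O)}

/-- A nonzero constant which is a multiple of an element of the base. -/
theorem exists_nm (hG : GB k O K G ρ T) {b : O} (hb : b ≠ 0) : ∃ (c : k) (r : O), c ≠ 0 ∧
    algebraMap k O c = b * r := by
  classical
  cases nonempty_fintype G
  obtain ⟨c, hc⟩ := hG.fix _ fun g => nm_act T g b
  refine ⟨c, ∏ g ∈ Finset.univ.erase 1, T g b, ?_, ?_⟩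
  · rintro rfl
    rw [map_zero] at hc
    obtain ⟨g, -, hg⟩ := Finset.prod_eq_zero_iff.1 hc.symm
    exact hb ((map_eq_zero_iff _ (T g).injective).1 hg)
  · rw [hc, nm_mul]

end base

section chart

variable {k O K G Ω : Type} [CommRing k] [CommRing O] [Field K] [Group G] [MulAction G Ω]
  [Algebra k O] [Algebra O K] [Algebra k K] [IsScalarTower k O K] {ρ : G →* (K ≃ₐ[k] K)}
  {T : G →* (O ≃ₐ[k] O)} {m : ℕ} {z : Ω → Fin (m + 1) → K} {s : k} {d : ℕ} {Φ : Ω → K}

theorem CG_OL {x : K} (hx : x ∈ OL O (K := K) s) : x ∈ CG (OL O (K := K) s) z d Φ :=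
  (CG (OL O (K := K) s) z d Φ).algebraMap_mem (⟨x, hx⟩ : OL O (K := K) s)

theorem CG_gen (ω : Ω) {x : K} (hx : x ∈ MN (z ω) d) :
    x / Φ ω ∈ CG (OL O (K := K) s) z d Φ :=
  le_iSup (fun ω => AF (OL O (K := K) s) (z ω) d (Φ ω)) ω (Algebra.subset_adjoin ⟨x, hx, rfl⟩)

theorem OL_act (hcom : ∀ g o, ρ g (algebraMap O K o) = algebraMap O K (T g o)) (g : G) {x : K}
    (hx : x ∈ OL O (K := K) s) : ρ g x ∈ OL O (K := K) s := by
  obtain ⟨n, y, h⟩ := hx
  refine ⟨n, T g y, ?_⟩
  rw [← hcom, ← h, map_mul, map_pow, AlgEquiv.commutes]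

theorem CG_act (hcom : ∀ g o, ρ g (algebraMap O K o) = algebraMap O K (T g o))
    (heqv : ∀ g ω j, ρ g (z ω j) = z (g • ω) j) (hΦ : Fm k K G Ω ρ z d Φ) (g : G) :
    ∀ x ∈ CG (OL O (K := K) s) z d Φ, ρ g x ∈ CG (OL O (K := K) s) z d Φ := by
  let S : Subalgebra (OL O (K := K) s) K :=
    { carrier := {x | ρ g x ∈ CG (OL O (K := K) s) z d Φ}
      mul_mem' := fun {x y} hx hy => by
        have h1 : ρ g (x * y) ∈ CG (OL O (K := K) s) z d Φ := by
          rw [map_mul]
          exact mul_mem hx hy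
        exact h1
      add_mem' := fun {x y} hx hy => by
        have h1 : ρ g (x + y) ∈ CG (OL O (K := K) s) z d Φ := by
          rw [map_add]
          exact add_mem hx hy
        exact h1
      algebraMap_mem' := fun r => CG_OL (OL_act hcom g r.2) }
  have hle : CG (OL O (K := K) s) z d Φ ≤ S := by
    refine iSup_le fun ω => ?_
    unfold AF
    rw [Algebra.adjoin_le_iff]
    rintro _ ⟨_, ⟨a, ha, rfl⟩, rfl⟩
    have h2 : ρ g ((∏ j, z ω j ^ a j) / Φ ω) = (∏ j, z (g • ω) j ^ a j) / Φ (g • ω) := by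
      rw [map_div₀, map_prod, hΦ.eqv]
      congr 1
      exact Finset.prod_congr rfl fun j _ => by rw [map_pow, heqv]
    have h3 : ρ g ((∏ j, z ω j ^ a j) / Φ ω) ∈ CG (OL O (K := K) s) z d Φ := by
      rw [h2]
      exact CG_gen (g • ω) ⟨a, ha, rfl⟩
    exact h3
  exact fun x hx => hle hx

theorem mem_GRG {N : Type} {𝔔 : N → Ideal (OL O (K := K) s)} {p l : N → ℕ} {τ : N → G}
    (hp : ∀ i, 0 < p i) {x : K} (hx : x ∈ CG (OL O (K := K) s) z d Φ) :
    hm 0 x ∈ GRG O ρ z s 𝔔 p l τ d Φ := by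
  unfold GRG RG
  rw [Algebra.mem_inf, Algebra.mem_iInf]
  exact ⟨RR_c Nat.one_pos hx, fun i => RR_c (hp i) hx⟩

end chart

section quot

variable {k O M Y K G Ω : Type} [CommRing k] [IsDomain k] [CommRing O] [IsDomain O]
  [IsDedekindDomain O] [Field M] [Field Y] [Field K] [Group G] [Finite G] [MulAction G Ω]
  [Algebra k O] [Algebra O K] [Algebra k K] [IsScalarTower k O K] [Algebra M K] [Algebra k Y]
  {ι : Y →ₐ[k] K} {ρ : G →* (K ≃ₐ[k] K)} {T : G →* (O ≃ₐ[k] O)} {m : ℕ}
  {z : Ω → Fin (m + 1) → K}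

/-- Every element of `K` is a quotient of elements of the chart. -/
theorem CG_quot (hG : GHG k O M Y K G Ω ι ρ T m z) (s : k) {d : ℕ} (hd : 1 ≤ d) {Φ : Ω → K}
    (hΦ : Fm k K G Ω ρ z d Φ) (x : K) :
    ∃ c c', c ∈ CG (OL O (K := K) s) z d Φ ∧ c' ∈ CG (OL O (K := K) s) z d Φ ∧ c' ≠ 0 ∧
      x = c / c' := by
  let S : IntermediateField M K :=
    { carrier := {x | ∃ c c', c ∈ CG (OL O (K := K) s) z d Φ ∧
        c' ∈ CG (OL O (K := K) s) z d Φ ∧ c' ≠ 0 ∧ x = c / c'}
      mul_mem' := by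
        rintro x y ⟨a, a', ha, ha', h0, rfl⟩ ⟨b, b', hb, hb', h0', rfl⟩
        refine ⟨a * b, a' * b', mul_mem ha hb, mul_mem ha' hb', mul_ne_zero h0 h0', ?_⟩
        rw [div_mul_div_comm]
      add_mem' := by
        rintro x y ⟨a, a', ha, ha', h0, rfl⟩ ⟨b, b', hb, hb', h0', rfl⟩
        refine ⟨a * b' + a' * b, a' * b', add_mem (mul_mem ha hb') (mul_mem ha' hb),
          mul_mem ha' hb', mul_ne_zero h0 h0', ?_⟩
        rw [div_add_div _ _ h0 h0']
      algebraMap_mem' := by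
        intro r
        obtain ⟨a, b, hb, h⟩ := hG.lf r
        have hb0 : algebraMap O K b ≠ 0 := (map_ne_zero_iff _ hG.inj).2 hb
        exact ⟨algebraMap O K a, algebraMap O K b, CG_OL (OL_alg a), CG_OL (OL_alg b), hb0,
          by rw [eq_div_iff hb0, h]⟩
      inv_mem' := by
        rintro x ⟨a, a', ha, ha', h0, rfl⟩
        by_cases h : a = 0
        · refine ⟨0, 1, zero_mem _, one_mem _, one_ne_zero, ?_⟩
          rw [h]
          simp
        · exact ⟨a', a, ha', ha, h, inv_div _ _⟩ }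
  have hle : IntermediateField.adjoin M {y : K | ∃ ω j, y = z ω j / z ω 0} ≤ S := by
    rw [IntermediateField.adjoin_le_iff]
    rintro _ ⟨ω, j, rfl⟩
    have h1 : z ω j * z ω 0 ^ (d - 1) ∈ MN (z ω) d := by
      have := MN_mul (z ω) (MN_z (z ω) j) (MN_pow_z (z ω) 0 (d - 1))
      rwa [Nat.add_sub_cancel' hd] at this
    have hF : Φ ω ≠ 0 := hΦ.ne ω
    have h0 : z ω 0 ^ d / Φ ω ≠ 0 := div_ne_zero (pow_ne_zero _ (hG.z0 ω 0)) hF
    refine ⟨z ω j * z ω 0 ^ (d - 1) / Φ ω, z ω 0 ^ d / Φ ω, CG_gen ω h1,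
      CG_gen ω (MN_pow_z (z ω) 0 d), h0, ?_⟩
    obtain ⟨e, rfl⟩ : ∃ e, d = e + 1 := ⟨d - 1, by omega⟩
    rw [Nat.add_sub_cancel]
    have hz : z ω 0 ≠ 0 := hG.z0 ω 0
    field_simp
    ring
  rw [hG.gen] at hle
  exact hle IntermediateField.mem_top

end quot

/-- **The field of fractions of the charts, and constants of degree one.** -/
theorem t_GFRG : S_GFRG := by
  classical
  intro k O M Y K G Ω _ _ _ _ _ _ _ _ _ _ _ _ _ _ _ _ _ _ _ ι ρ T m z hG s N _ 𝔔 p l τ hs h𝔔 hp d
    Φ hd hΦ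
  cases nonempty_fintype G
  cases nonempty_fintype N
  constructor
  · intro x
    obtain ⟨c, c', hc, hc', h0, hx⟩ := CG_quot hG s hd hΦ (ι x)
    obtain ⟨y', hy'⟩ := (hG.fixK _).1 fun g => nm_act ρ g c'
    have hact : ∀ g, ρ g c' ∈ CG (OL O (K := K) s) z d Φ := fun g =>
      CG_act hG.com hG.eqv hΦ g c' hc'
    have hN0 : (∏ g, ρ g c') ≠ 0 := by
      rw [Finset.prod_ne_zero_iff]
      exact fun g _ => (map_ne_zero_iff _ (ρ g).injective).2 h0
    have hy0 : y' ≠ 0 := by
      rintro rfl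
      rw [map_zero] at hy'
      exact hN0 hy'.symm
    refine ⟨x * y', y', ?_, ?_, hy0, ?_⟩
    · rw [mem_res, map_mul, hx, hy', nm_mul]
      have h1 : c / c' * (c' * ∏ g ∈ Finset.univ.erase 1, ρ g c') =
          c * ∏ g ∈ Finset.univ.erase 1, ρ g c' := by
        field_simp
      rw [h1]
      exact mem_GRG hp (mul_mem hc (prod_mem fun g _ => hact g))
    · rw [mem_res, hy']
      exact mem_GRG hp (prod_mem fun g _ => hact g)
    · rw [mul_div_cancel_right₀ _ hy0]
  · have hs0 : algebraMap k K s ≠ 0 := (map_ne_zero_iff _ hG.injk).2 hs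
    have hone : ∀ i, ∃ c : k, c ≠ 0 ∧ algebraMap k (OL O (K := K) s) c ∈ 𝔔 i := by
      intro i
      obtain ⟨e, he, he0⟩ := Submodule.exists_mem_ne_zero_of_ne_bot (h𝔔 i)
      obtain ⟨n, y, hy⟩ := e.2
      have hy0 : y ≠ 0 := by
        rintro rfl
        rw [map_zero] at hy
        rcases mul_eq_zero.1 hy with h | h
        · exact pow_ne_zero _ hs0 h
        · exact he0 (Subtype.ext h)
      obtain ⟨c, r, hc, hcr⟩ := exists_nm hG.toGB hy0
      refine ⟨c, hc, ?_⟩
      have h1 : algebraMap k (OL O (K := K) s) c =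
          e * ⟨algebraMap k K s ^ n * algebraMap O K r, mul_mem
            (pow_mem ((OL O (K := K) s).algebraMap_mem s) n) (OL_alg r)⟩ := by
        apply Subtype.ext
        change algebraMap k K c = (e : K) * (algebraMap k K s ^ n * algebraMap O K r)
        rw [IsScalarTower.algebraMap_apply k O K, hcr, map_mul, ← hy]
        ring
      rw [h1]
      exact Ideal.mul_mem_right _ _ he
    choose c hc hcm using hone
    have hall : ∀ i, algebraMap k (OL O (K := K) s) (∏ i, c i) ∈ 𝔔 i := by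
      intro i
      obtain ⟨w, hw⟩ := Finset.dvd_prod_of_mem c (Finset.mem_univ i)
      rw [hw, map_mul]
      exact Ideal.mul_mem_right _ _ (hcm i)
    refine ⟨∏ i, c i, Finset.prod_ne_zero_iff.2 fun i _ => hc i, ?_⟩
    rw [mem_res, AlgHom.commutes]
    have h1 : algebraMap k K (∏ i, c i) = algebraMap (OL O (K := K) s) K
        (algebraMap k (OL O (K := K) s) (∏ i, c i)) := rfl
    rw [h1]
    unfold GRG RG
    rw [Algebra.mem_inf, Algebra.mem_iInf]
    exact ⟨RR_e Submodule.mem_top, fun i => RR_e (hall i)⟩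

/-- **Descent of forms.** -/
theorem t_DSCG : S_DSCG := by
  classical
  intro k O M Y K G Ω _ _ _ _ _ _ _ _ _ _ _ _ _ _ _ _ _ _ ι ρ T m z hG N y hy
  cases nonempty_fintype G
  obtain ⟨c, hc, hcy⟩ := Pool.Agent.Y185.G.span_clear (O := O) hG.lf _ _ hy
  -- the norm of the denominator
  obtain ⟨r, w, hr0, hr⟩ := exists_nm hG.toGB hc
  have hry : algebraMap k O r • ι y ∈ Submodule.span O (ι '' (N : Set Y)) := by
    rw [hr, mul_comm, mul_smul]
    exact Submodule.smul_mem _ _ hcy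
  -- the trace
  have key : ∀ x ∈ Submodule.span O (ι '' (N : Set Y)), ∀ a : O,
      ∃ n ∈ N, ∑ g, ρ g (a • x) = ι n := by
    intro x hx
    induction hx using Submodule.span_induction with
    | mem x hx =>
      intro a
      obtain ⟨n, hn, rfl⟩ := hx
      obtain ⟨b, hb⟩ := hG.fix _ fun g => tr_act T g a
      refine ⟨b • n, N.smul_mem b hn, ?_⟩
      have h1 : ∀ g ∈ (Finset.univ : Finset G),
          ρ g (a • ι n) = algebraMap O K (T g a) * ι n := by
        intro g _
        rw [Algebra.smul_def, map_mul, hG.com, (hG.fixK (ι n)).2 ⟨n, rfl⟩ g]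
      rw [Finset.sum_congr rfl h1, ← Finset.sum_mul, ← map_sum, ← hb, map_smul, Algebra.smul_def,
        ← IsScalarTower.algebraMap_apply k O K]
    | zero =>
      intro a
      refine ⟨0, N.zero_mem, ?_⟩
      rw [smul_zero, map_zero]
      exact Finset.sum_eq_zero fun g _ => map_zero (ρ g)
    | add x y _ _ hx hy =>
      intro a
      obtain ⟨n, hn, hx⟩ := hx a
      obtain ⟨n', hn', hy⟩ := hy a
      refine ⟨n + n', N.add_mem hn hn', ?_⟩
      rw [map_add, ← hx, ← hy, ← Finset.sum_add_distrib]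
      refine Finset.sum_congr rfl fun g _ => ?_
      rw [smul_add, map_add]
    | smul b x _ hx =>
      intro a
      obtain ⟨n, hn, hx⟩ := hx (a * b)
      exact ⟨n, hn, by rw [← mul_smul]; exact hx⟩
  obtain ⟨n, hn, h⟩ := key _ hry 1
  refine ⟨(Nat.card G : k) * r, mul_ne_zero ?_ hr0, ?_⟩
  · intro h0
    apply hG.cg
    have := congrArg (algebraMap k K) h0
    rwa [map_natCast, map_zero] at this
  · have h2 : ((Nat.card G : k) * r) • y = n := by
      apply ι.toRingHom.injective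
      show ι (((Nat.card G : k) * r) • y) = ι n
      rw [← h]
      have h3 : ∀ g ∈ (Finset.univ : Finset G), ρ g ((1 : O) • algebraMap k O r • ι y) =
          algebraMap k K r * ι y := by
        intro g _
        rw [one_smul, Algebra.smul_def, ← IsScalarTower.algebraMap_apply k O K, map_mul,
          AlgEquiv.commutes, (hG.fixK (ι y)).2 ⟨y, rfl⟩ g]
      rw [Finset.sum_congr rfl h3, Finset.sum_const, Finset.card_univ, map_smul,
        Algebra.smul_def, map_mul, map_natCast, nsmul_eq_mul, mul_assoc, Nat.card_eq_fintype_card]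
    rw [h2]
    exact hn

end Pool.Agent.Y564.G
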